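import Pool.Agent.EK.Final

/-!
# The Erdős–Kac theorem for Beatty sequences with the optimal rate of convergence

For every real `α > 0` and every real `β` there are `C` and `N₀` such that for every function `w` on the
integers which equals `ω` (the number of distinct prime factors) at the positive integers, every
`N ≥ N₀` and every real `x`,
`|#{1 ≤ n ≤ N : (w(⌊α n + β⌋) - log log N) / √(log log N) ≤ x} / N - Φ(x)| ≤ C / √(log log N)`.
-/

namespace Pool.Agent.Results.MP_4a5284_nt.OptimalRate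

open EK Finset

theorem result (α β : ℝ) (hα : 0 < α) :
    ∃ (C : ℝ) (N₀ : ℕ), ∀ w : ℤ → ℝ,
      (∀ m : ℕ, 0 < m → w m = ArithmeticFunction.cardDistinctFactors m) →
      ∀ N : ℕ, N₀ ≤ N → ∀ x : ℝ,
        |(((Finset.Icc 1 N).filter (fun n : ℕ =>
              (w ⌊α * n + β⌋ - Real.log (Real.log N)) / √(Real.log (Real.log N)) ≤ x)).card : ℝ) / N -
            ProbabilityTheory.cdf (ProbabilityTheory.gaussianReal 0 1) x| ≤
          C / √(Real.log (Real.log N)) := by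
  obtain ⟨C, n0, J0, hC, hpos, hmain⟩ := beatty_normal α β hα
  refine ⟨C + 2 ^ 16 + 3, 2 ^ 2 ^ (J0 + 15), fun w hw N hN x => ?_⟩
  -- the scale J
  obtain ⟨J, hJ0, hJ1, hJ2⟩ : ∃ J ≥ J0, 2 ^ 2 ^ (J + 14) ≤ N ∧ N < 2 ^ 2 ^ (J + 15) := by
    have hNpos : N ≠ 0 := by
      rintro rfl
      have : 0 < 2 ^ 2 ^ (J0 + 15) := by positivity
      omega
    have h1 : 2 ^ (J0 + 15) ≤ Nat.log 2 N := Nat.le_log_of_pow_le (by norm_num) hN
    have hlogpos : Nat.log 2 N ≠ 0 := by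
      have : 0 < 2 ^ (J0 + 15) := by positivity
      omega
    have h2 : J0 + 15 ≤ Nat.log 2 (Nat.log 2 N) := Nat.le_log_of_pow_le (by norm_num) h1
    have h3 : 2 ^ Nat.log 2 (Nat.log 2 N) ≤ Nat.log 2 N := Nat.pow_log_le_self 2 hlogpos
    have h4 : Nat.log 2 N < 2 ^ (Nat.log 2 (Nat.log 2 N) + 1) :=
      Nat.lt_pow_succ_log_self (by norm_num) _
    have h5 : 2 ^ Nat.log 2 N ≤ N := Nat.pow_log_le_self 2 hNpos
    have h6 : N < 2 ^ (Nat.log 2 N + 1) := Nat.lt_pow_succ_log_self (by norm_num) _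
    obtain ⟨k, hk⟩ : ∃ k, Nat.log 2 (Nat.log 2 N) = k := ⟨_, rfl⟩
    rw [hk] at h2 h3 h4
    refine ⟨k - 14, by omega, ?_, ?_⟩
    · have e : k - 14 + 14 = k := by omega
      rw [e]
      exact (Nat.pow_le_pow_right (by norm_num) h3).trans h5
    · have e : k - 14 + 15 = k + 1 := by omega
      rw [e]
      exact lt_of_lt_of_le h6 (Nat.pow_le_pow_right (by norm_num) h4)
  obtain ⟨hL1, hn0N, hmle, hcount⟩ := hmain J hJ0 N hJ1 hJ2
  have hNpos : 0 < N := lt_of_lt_of_le (by positivity) hJ1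
  clear hN hJ1 hJ2 hmain hJ0
  have hNR : (0 : ℝ) < N := by exact_mod_cast hNpos
  set L := Real.log (Real.log N) with hL
  have hL0 : 0 < L := by linarith
  have hsL : 0 < √L := Real.sqrt_pos.mpr hL0
  have hsL1 : 1 ≤ √L := by
    apply Real.le_sqrt_of_sq_le; linarith
  set y : ℝ := L + x * √L with hy
  set k : ℤ := ⌊y⌋ with hk
  have hky : (k : ℝ) ≤ y := Int.floor_le y
  have hyk : y < k + 1 := Int.lt_floor_add_one y
  have hcond : ∀ t : ℝ, (t - L) / √L ≤ x ↔ t ≤ y := by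
    intro t
    rw [div_le_iff₀ hsL, hy]
    constructor <;> intro h <;> linarith
  -- values of w
  have hwval : ∀ n ∈ Finset.Ioc n0 N, ∃ v : ℕ, w ⌊α * n + β⌋ = v ∧
      U (AP J) (⌊α * n + β⌋.toNat) ≤ v ∧ v ≤ U (AP J) (⌊α * n + β⌋.toNat) + 2 ^ 16 := by
    intro n hn
    have hp := hpos n (Finset.mem_Ioc.mp hn).1
    have hm0 : 0 < ⌊α * n + β⌋.toNat := by omega
    refine ⟨(⌊α * n + β⌋.toNat).primeFactors.card, ?_, ?_⟩
    · have h1 := hw ⌊α * n + β⌋.toNat hm0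
      rw [Int.toNat_of_nonneg hp.le] at h1
      rw [h1, ArithmeticFunction.cardDistinctFactors_apply]
      rfl
    · exact card_primeFactors_le_U hm0 (hmle n hn)
  set cnt := ((Finset.Icc 1 N).filter (fun n : ℕ => (w ⌊α * n + β⌋ - L) / √L ≤ x)).card with hcnt
  -- upper bound
  have hup : (cnt : ℝ) ≤ n0 + (((Finset.Ioc n0 N).filter
      (fun n : ℕ => (U (AP J) (⌊α * n + β⌋.toNat) : ℤ) ≤ k)).card : ℝ) := by
    have hsub : (Finset.Icc 1 N).filter (fun n : ℕ => (w ⌊α * n + β⌋ - L) / √L ≤ x) ⊆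
        Finset.Icc 1 n0 ∪ (Finset.Ioc n0 N).filter
          (fun n : ℕ => (U (AP J) (⌊α * n + β⌋.toNat) : ℤ) ≤ k) := by
      intro n hn
      rw [Finset.mem_filter, Finset.mem_Icc] at hn
      rw [Finset.mem_union]
      by_cases h : n ≤ n0
      · exact Or.inl (Finset.mem_Icc.mpr ⟨hn.1.1, h⟩)
      · right
        have hmem : n ∈ Finset.Ioc n0 N := Finset.mem_Ioc.mpr ⟨not_le.mp h, hn.1.2⟩
        refine Finset.mem_filter.mpr ⟨hmem, ?_⟩
        obtain ⟨v, hv1, hv2, _⟩ := hwval n hmem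
        have h1 := (hcond _).mp hn.2
        rw [hv1] at h1
        have h2 : (v : ℤ) ≤ k := by
          rw [hk, Int.le_floor]; exact_mod_cast h1
        have h3 : (U (AP J) (⌊α * n + β⌋.toNat) : ℤ) ≤ v := by exact_mod_cast hv2
        exact h3.trans h2
    have h1 := (Finset.card_le_card hsub).trans (Finset.card_union_le _ _)
    rw [Nat.card_Icc, Nat.add_sub_cancel] at h1
    exact_mod_cast h1
  -- lower bound
  have hlow : (((Finset.Ioc n0 N).filter
      (fun n : ℕ => (U (AP J) (⌊α * n + β⌋.toNat) : ℤ) ≤ k - 2 ^ 16)).card : ℝ) ≤ cnt := by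
    have hsub : (Finset.Ioc n0 N).filter
        (fun n : ℕ => (U (AP J) (⌊α * n + β⌋.toNat) : ℤ) ≤ k - 2 ^ 16) ⊆
        (Finset.Icc 1 N).filter (fun n : ℕ => (w ⌊α * n + β⌋ - L) / √L ≤ x) := by
      intro n hn
      rw [Finset.mem_filter] at hn
      obtain ⟨v, hv1, _, hv2⟩ := hwval n hn.1
      have hmem := Finset.mem_Ioc.mp hn.1
      rw [Finset.mem_filter, Finset.mem_Icc]
      refine ⟨⟨by omega, hmem.2⟩, ?_⟩
      rw [hcond, hv1]
      have h1 : (v : ℤ) ≤ (U (AP J) (⌊α * n + β⌋.toNat) : ℤ) + 2 ^ 16 := by exact_mod_cast hv2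
      have h2 : (v : ℤ) ≤ k := by linarith [hn.2]
      have h3 : (v : ℝ) ≤ k := by exact_mod_cast h2
      linarith
    exact_mod_cast Finset.card_le_card hsub
  have hc1 := hcount k
  have hc2 := hcount (k - 2 ^ 16)
  have hxy : x = (y - L) / √L := by
    rw [hy]; field_simp; ring
  have hN1 : |NCdf ((k - L) / √L) - NCdf x| ≤ 1 / √L := by
    refine (NCdf_lip _ _).trans ?_
    rw [hxy, ← sub_div, abs_div, abs_of_pos hsL]
    apply div_le_div_of_nonneg_right _ hsL.le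
    rw [abs_le]; constructor <;> linarith
  have hN2 : |NCdf ((((k - 2 ^ 16 : ℤ) : ℝ) - L) / √L) - NCdf x| ≤ (2 ^ 16 + 1) / √L := by
    refine (NCdf_lip _ _).trans ?_
    rw [hxy, ← sub_div, abs_div, abs_of_pos hsL]
    apply div_le_div_of_nonneg_right _ hsL.le
    push_cast
    rw [abs_le]; constructor <;> linarith
  rw [abs_le] at hc1 hc2 hN1 hN2
  generalize NCdf ((((k - 2 ^ 16 : ℤ) : ℝ) - L) / √L) = P2 at hc2 hN2
  generalize NCdf ((k - L) / √L) = P1 at hc1 hN1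
  obtain ⟨c1, hc1d⟩ : ∃ c : ℝ, (((Finset.Ioc n0 N).filter
      (fun n : ℕ => (U (AP J) (⌊α * n + β⌋.toNat) : ℤ) ≤ k)).card : ℝ) = c := ⟨_, rfl⟩
  obtain ⟨c2, hc2d⟩ : ∃ c : ℝ, (((Finset.Ioc n0 N).filter
      (fun n : ℕ => (U (AP J) (⌊α * n + β⌋.toNat) : ℤ) ≤ k - 2 ^ 16)).card : ℝ) = c := ⟨_, rfl⟩
  rw [hc1d] at hc1 hup
  rw [hc2d] at hc2 hlow
  have hfin : |(cnt : ℝ) - N * NCdf x| ≤ (C + 2 ^ 16 + 3) * (N / √L) := by
    have e1 : C * N / √L = C * (N / √L) := by ring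
    rw [e1] at hc1 hc2
    have g1 : (N : ℝ) * P1 ≤ N * (NCdf x + 1 / √L) := by
      apply mul_le_mul_of_nonneg_left _ hNR.le; linarith [hN1.2]
    have g2 : (N : ℝ) * (NCdf x - (2 ^ 16 + 1) / √L) ≤ N * P2 := by
      apply mul_le_mul_of_nonneg_left _ hNR.le; linarith [hN2.1]
    have e2 : (N : ℝ) * (NCdf x + 1 / √L) = N * NCdf x + N / √L := by ring
    have e3 : (N : ℝ) * (NCdf x - (2 ^ 16 + 1) / √L) = N * NCdf x - (2 ^ 16 + 1) * (N / √L) := by
      ring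
    rw [e2] at g1
    rw [e3] at g2
    have h0 : 0 ≤ (N : ℝ) / √L := by positivity
    rw [abs_le]
    constructor
    · linarith [hc2.1]
    · linarith [hc1.2]
  have e4 : (cnt : ℝ) / N - ProbabilityTheory.cdf (ProbabilityTheory.gaussianReal 0 1) x =
      ((cnt : ℝ) - N * NCdf x) / N := by
    field_simp
  rw [e4, abs_div, abs_of_pos hNR, div_le_iff₀ hNR]
  refine hfin.trans (le_of_eq ?_)
  ring

end Pool.Agent.Results.MP_4a5284_nt.OptimalRate
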